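import Pool.Agent.Lib.MP_f10cd3_gt.N.Defs

/-! Rows N1, N2: the coefficients of the metric. -/

set_option autoImplicit false

namespace F10N


open MPf10cd3 F10G F10S F10R Bundle
open scoped Manifold ContDiff

variable {M : Type} [MetricSpace M] [ChartedSpace ℂ M] [IsManifold 𝓘(ℝ, ℂ) ∞ M]
  [RiemannianBundle (fun x : M => TangentSpace 𝓘(ℝ, ℂ) x)]
  [IsContMDiffRiemannianBundle 𝓘(ℝ, ℂ) ∞ ℂ (fun x : M => TangentSpace 𝓘(ℝ, ℂ) x)]

section N1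

omit [RiemannianBundle (fun x : M => TangentSpace 𝓘(ℝ, ℂ) x)]
  [IsContMDiffRiemannianBundle 𝓘(ℝ, ℂ) ∞ ℂ (fun x : M => TangentSpace 𝓘(ℝ, ℂ) x)] in
/-- the field `z ↦ D e.symm z v` along `e.symm` is smooth -/
private theorem N1_field {e : OpenPartialHomeomorph M ℂ} (he : e ∈ atlas ℂ M) (v : ℂ) :
    ContMDiffOn 𝓘(ℝ, ℂ) (𝓘(ℝ, ℂ).prod 𝓘(ℝ, ℂ)) ∞
      (fun z : ℂ => (⟨e.symm z, mfderiv 𝓘(ℝ, ℂ) 𝓘(ℝ, ℂ) e.symm z v⟩ :
        TotalSpace ℂ (fun x : M => TangentSpace 𝓘(ℝ, ℂ) x))) e.target := by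
  have h1 : ContMDiffOn 𝓘(ℝ, ℂ) 𝓘(ℝ, ℂ) ∞ e.symm e.target :=
    contMDiffOn_symm_of_mem_maximalAtlas (IsManifold.subset_maximalAtlas he)
  have h2 := h1.contMDiffOn_tangentMapWithin (m := ∞) (by simp)
    e.open_target.uniqueMDiffOn
  have h3 : ContMDiff 𝓘(ℝ, ℂ) 𝓘(ℝ, ℂ).tangent ∞
      (fun z : ℂ => (⟨z, v⟩ : TangentBundle 𝓘(ℝ, ℂ) ℂ)) :=
    contMDiff_vectorSpace_iff_contDiff.2 (contDiff_const (c := v))
  have h4 := h2.comp h3.contMDiffOn (s := e.target) (fun z hz => hz)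
  refine h4.congr fun z hz => ?_
  change _ = tangentMapWithin 𝓘(ℝ, ℂ) 𝓘(ℝ, ℂ) e.symm e.target ⟨z, v⟩
  unfold tangentMapWithin
  rw [mfderivWithin_of_isOpen e.open_target hz]

/-- Row N1. `ContMDiffOn.inner_bundle` along the map `e.symm`, with the sections
`z ↦ mfderiv e.symm z v` (smooth: `contMDiffOn_symm_of_mem_maximalAtlas`, `ContMDiffOn.contMDiffOn_tangentMapWithin`) -/
theorem coef_smooth {e : OpenPartialHomeomorph M ℂ} (he : e ∈ atlas ℂ M) (v w : ℂ) :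
    ContDiffOn ℝ ∞ (coef e v w) e.target := by
  rw [← contMDiffOn_iff_contDiffOn]
  exact (N1_field he v).inner_bundle (N1_field he w)

end N1

section N2

private theorem N2_lin (e : OpenPartialHomeomorph M ℂ) (z v : ℂ) :
    mfderiv 𝓘(ℝ, ℂ) 𝓘(ℝ, ℂ) e.symm z v =
      v.re • mfderiv 𝓘(ℝ, ℂ) 𝓘(ℝ, ℂ) e.symm z (1 : ℂ) +
        v.im • mfderiv 𝓘(ℝ, ℂ) 𝓘(ℝ, ℂ) e.symm z Complex.I := by
  have hv : v = v.re • (1 : ℂ) + v.im • Complex.I := by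
    apply Complex.ext <;> simp
  have h1 := (mfderiv 𝓘(ℝ, ℂ) 𝓘(ℝ, ℂ) e.symm z).map_add (v.re • (1 : ℂ)) (v.im • Complex.I)
  have h2 := (mfderiv 𝓘(ℝ, ℂ) 𝓘(ℝ, ℂ) e.symm z).map_smul v.re (1 : ℂ)
  have h3 := (mfderiv 𝓘(ℝ, ℂ) 𝓘(ℝ, ℂ) e.symm z).map_smul v.im Complex.I
  exact (congrArg (fun w : ℂ => mfderiv 𝓘(ℝ, ℂ) 𝓘(ℝ, ℂ) e.symm z w) hv).trans
    (h1.trans (congrArg₂ (fun a b => a + b) h2 h3))

/-- Row N2a. linearity of the derivative, `v = v.re • 1 + v.im • I` -/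
theorem coef_quad (e : OpenPartialHomeomorph M ℂ) (z v : ℂ) :
    ‖mfderiv 𝓘(ℝ, ℂ) 𝓘(ℝ, ℂ) e.symm z v‖ ^ 2 =
      qf (coef e 1 1) (coef e 1 Complex.I) (coef e Complex.I Complex.I) z v := by
  rw [N2_lin e z v, norm_add_sq_real, norm_smul, norm_smul, real_inner_smul_left,
    real_inner_smul_right]
  unfold qf coef
  rw [real_inner_self_eq_norm_sq, real_inner_self_eq_norm_sq, mul_pow, mul_pow, Real.norm_eq_abs,
    Real.norm_eq_abs, sq_abs, sq_abs]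
  ring

/-- Row N2b. `mfderiv e.symm z` is injective, Cauchy-Schwarz -/
theorem coef_pos {e : OpenPartialHomeomorph M ℂ} (he : e ∈ atlas ℂ M) {z : ℂ}
    (hz : z ∈ e.target) : 0 < coef e 1 1 z ∧
      0 < coef e 1 1 z * coef e Complex.I Complex.I z - coef e 1 Complex.I z ^ 2 := by
  have hM1 : IsManifold 𝓘(ℝ, ℂ) 1 M := IsManifold.of_le (n := ∞) (by simp)
  have hd : e.MDifferentiable 𝓘(ℝ, ℂ) 𝓘(ℝ, ℂ) := mdifferentiable_of_mem_atlas he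
  have hinj : Function.Injective (mfderiv 𝓘(ℝ, ℂ) 𝓘(ℝ, ℂ) e.symm z) :=
    hd.symm.mfderiv_injective hz
  have hpos : ∀ v : ℂ, v ≠ 0 →
      0 < qf (coef e 1 1) (coef e 1 Complex.I) (coef e Complex.I Complex.I) z v := by
    intro v hv
    rw [← coef_quad e z v]
    have h0 : mfderiv 𝓘(ℝ, ℂ) 𝓘(ℝ, ℂ) e.symm z v ≠ 0 := by
      intro h
      apply hv
      apply hinj
      rw [h]
      exact ((mfderiv 𝓘(ℝ, ℂ) 𝓘(ℝ, ℂ) e.symm z).map_zero).symm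
    have h1 := norm_pos_iff.2 h0
    positivity
  have hE : 0 < coef e 1 1 z := by
    have h := hpos 1 one_ne_zero
    unfold qf at h
    simpa using h
  refine ⟨hE, ?_⟩
  have hv : (⟨-coef e 1 Complex.I z, coef e 1 1 z⟩ : ℂ) ≠ 0 := by
    intro h
    have := congrArg Complex.im h
    simp only [Complex.zero_im] at this
    exact hE.ne' this
  have h := hpos _ hv
  unfold qf at h
  simp only at h
  have h2 : coef e 1 1 z * (-coef e 1 Complex.I z) ^ 2 +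
      2 * coef e 1 Complex.I z * (-coef e 1 Complex.I z) * coef e 1 1 z +
      coef e Complex.I Complex.I z * coef e 1 1 z ^ 2 =
      coef e 1 1 z * (coef e 1 1 z * coef e Complex.I Complex.I z - coef e 1 Complex.I z ^ 2) := by
    ring
  rw [h2] at h
  exact (mul_pos_iff_of_pos_left hE).1 h

end N2

end F10N
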