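import Pool.Agent.Lib.MP_f10cd3_gt.R.Defs

/-!
# Closed Riemannian surfaces: definitions used in the theorem
-/

set_option autoImplicit false

namespace F10N

open MPf10cd3 F10G F10S F10R Bundle
open scoped Manifold ContDiff

section

variable {M : Type} [MetricSpace M] [ChartedSpace ℂ M]
  [RiemannianBundle (fun x : M => TangentSpace 𝓘(ℝ, ℂ) x)]

/-- the coefficient `⟨∂_v, ∂_w⟩` of the Riemannian metric of `M` in the chart `e`, at the point with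
coordinate `z`; the manifolds are modelled on `ℂ = ℝ²` -/
noncomputable def coef (e : OpenPartialHomeomorph M ℂ) (v w z : ℂ) : ℝ :=
  inner ℝ (mfderiv 𝓘(ℝ, ℂ) 𝓘(ℝ, ℂ) e.symm z v) (mfderiv 𝓘(ℝ, ℂ) 𝓘(ℝ, ℂ) e.symm z w)

end

/-- `|K| ≤ κ` -/
def CurvBound (κ : ℝ) (M : Type) [MetricSpace M] [ChartedSpace ℂ M]
    [RiemannianBundle (fun x : M => TangentSpace 𝓘(ℝ, ℂ) x)] : Prop :=
  ∀ e ∈ atlas ℂ M, ∀ z ∈ e.target,
    |gaussK (coef e 1 1) (coef e 1 Complex.I) (coef e Complex.I Complex.I) z| ≤ κ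

/-- the atlas of `M` is oriented -/
def Oriented (M : Type) [MetricSpace M] [ChartedSpace ℂ M] : Prop :=
  ∀ e ∈ atlas ℂ M, ∀ e' ∈ atlas ℂ M, ∀ z ∈ (e.symm ≫ₕ e').source, 0 < jac (e.symm ≫ₕ e') z

end F10N
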