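import Pool.Agent.Lib.MP_f10cd3_gt.N.Defs

/-! Rows N3a, N3n: quadratic forms. -/

set_option autoImplicit false

namespace F10N


open F10S F10R
open scoped ContDiff

section N3a

/-- Row N3n. `A v = √E (v.re + τ v.im)`, `τ = (F + i √(EG - F²)) / E` -/
theorem qf_norm {E F G : ℂ → ℝ} {z : ℂ} (hE : 0 < E z) (h : 0 < E z * G z - F z ^ 2) :
    ∃ A : ℂ →L[ℝ] ℂ, ∀ v, ‖A v‖ = √(qf E F G z v) := by
  refine ⟨LinearMap.toContinuousLinearMap
    { toFun := fun v => (⟨√(E z) * (v.re + F z / E z * v.im),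
        √(E z) * (√(E z * G z - F z ^ 2) / E z * v.im)⟩ : ℂ)
      map_add' := ?_
      map_smul' := ?_ }, ?_⟩
  · intro v w
    apply Complex.ext
    · simp only [Complex.add_re, Complex.add_im]
      ring
    · simp only [Complex.add_im]
      ring
  · intro c v
    apply Complex.ext
    · simp only [Complex.real_smul, Complex.mul_re, Complex.mul_im, Complex.ofReal_re,
        Complex.ofReal_im, RingHom.id_apply]
      ring
    · simp only [Complex.real_smul, Complex.mul_im, Complex.ofReal_re,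
        Complex.ofReal_im, RingHom.id_apply]
      ring
  · intro v
    show ‖(⟨√(E z) * (v.re + F z / E z * v.im),
        √(E z) * (√(E z * G z - F z ^ 2) / E z * v.im)⟩ : ℂ)‖ = _
    rw [Complex.norm_def]
    congr 1
    rw [Complex.normSq_mk]
    have h1 : √(E z) * √(E z) = E z := Real.mul_self_sqrt hE.le
    have h2 : √(E z * G z - F z ^ 2) * √(E z * G z - F z ^ 2) = E z * G z - F z ^ 2 :=
      Real.mul_self_sqrt h.le
    unfold qf
    have e1 : √(E z) * (v.re + F z / E z * v.im) * (√(E z) * (v.re + F z / E z * v.im)) +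
        √(E z) * (√(E z * G z - F z ^ 2) / E z * v.im) *
          (√(E z) * (√(E z * G z - F z ^ 2) / E z * v.im)) =
        (√(E z) * √(E z)) * (v.re + F z / E z * v.im) ^ 2 +
        (√(E z) * √(E z)) * (√(E z * G z - F z ^ 2) * √(E z * G z - F z ^ 2)) / (E z) ^ 2 *
          v.im ^ 2 := by ring
    rw [e1, h1, h2]
    field_simp
    ring

private theorem N3a_lower {E F G : ℂ → ℝ} {z0 : ℂ} (hpE : 0 < E z0)
    (hp : 0 < E z0 * G z0 - F z0 ^ 2) : ∃ c : ℝ, 0 < c ∧ ∀ v : ℂ,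
      c * ‖v‖ ^ 2 ≤ qf E F G z0 v := by
  have hG : 0 < G z0 := by
    by_contra hcon
    have h1 : G z0 ≤ 0 := not_lt.mp hcon
    have h2 : E z0 * G z0 ≤ 0 := mul_nonpos_of_nonneg_of_nonpos hpE.le h1
    have h3 : 0 ≤ F z0 ^ 2 := sq_nonneg _
    linarith
  have hEG : 0 < E z0 + G z0 := by linarith
  refine ⟨(E z0 * G z0 - F z0 ^ 2) / (E z0 + G z0), div_pos hp hEG, fun v => ?_⟩
  have hn : ‖v‖ ^ 2 = v.re ^ 2 + v.im ^ 2 := by
    rw [← Complex.normSq_eq_norm_sq, Complex.normSq_apply]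
    ring
  rw [hn, div_mul_eq_mul_div, div_le_iff₀ hEG]
  unfold qf
  nlinarith [sq_nonneg (E z0 * v.re + F z0 * v.im), sq_nonneg (F z0 * v.re + G z0 * v.im)]

private theorem N3a_diff (a b c : ℝ) (v : ℂ) :
    |a * v.re ^ 2 + 2 * b * v.re * v.im + c * v.im ^ 2| ≤ (|a| + 2 * |b| + |c|) * ‖v‖ ^ 2 := by
  have h1 : |v.re| ≤ ‖v‖ := Complex.abs_re_le_norm v
  have h2 : |v.im| ≤ ‖v‖ := Complex.abs_im_le_norm v
  have h0 : 0 ≤ ‖v‖ := norm_nonneg v
  have k1 : |v.re| ^ 2 ≤ ‖v‖ ^ 2 := pow_le_pow_left₀ (abs_nonneg _) h1 2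
  have k2 : |v.im| ^ 2 ≤ ‖v‖ ^ 2 := pow_le_pow_left₀ (abs_nonneg _) h2 2
  have k3 : |v.re| * |v.im| ≤ ‖v‖ ^ 2 := by
    rw [sq]
    exact mul_le_mul h1 h2 (abs_nonneg _) h0
  have e1 : |a * v.re ^ 2| = |a| * |v.re| ^ 2 := by rw [abs_mul, abs_pow]
  have e2 : |2 * b * v.re * v.im| = 2 * |b| * (|v.re| * |v.im|) := by
    rw [abs_mul, abs_mul, abs_mul, abs_two]
    ring
  have e3 : |c * v.im ^ 2| = |c| * |v.im| ^ 2 := by rw [abs_mul, abs_pow]
  calc |a * v.re ^ 2 + 2 * b * v.re * v.im + c * v.im ^ 2|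
      ≤ |a * v.re ^ 2| + |2 * b * v.re * v.im| + |c * v.im ^ 2| := abs_add_three _ _ _
    _ = |a| * |v.re| ^ 2 + 2 * |b| * (|v.re| * |v.im|) + |c| * |v.im| ^ 2 := by rw [e1, e2, e3]
    _ ≤ |a| * ‖v‖ ^ 2 + 2 * |b| * ‖v‖ ^ 2 + |c| * ‖v‖ ^ 2 := by
      gcongr
    _ = (|a| + 2 * |b| + |c|) * ‖v‖ ^ 2 := by ring

/-- Row N3a. -/
theorem qf_close {E F G : ℂ → ℝ} {Ω : Set ℂ} (hΩ : IsOpen Ω) (hE : ContinuousOn E Ω)
    (hF : ContinuousOn F Ω) (hG : ContinuousOn G Ω) {z0 : ℂ} (hz0 : z0 ∈ Ω) (hpE : 0 < E z0)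
    (hp : 0 < E z0 * G z0 - F z0 ^ 2) {ε : ℝ} (hε : 0 < ε) (hε1 : ε < 1) : ∃ δ : ℝ, 0 < δ ∧
      Metric.ball z0 δ ⊆ Ω ∧ ∀ z ∈ Metric.ball z0 δ, ∀ v : ℂ,
        (1 - ε) * √(qf E F G z0 v) ≤ √(qf E F G z v) ∧
          √(qf E F G z v) ≤ (1 + ε) * √(qf E F G z0 v) := by
  obtain ⟨c, hc, hcv⟩ := N3a_lower (E := E) (F := F) (G := G) hpE hp
  have hη : 0 < ε * c / 4 := by positivity
  have hE' := hE.continuousAt (hΩ.mem_nhds hz0)
  have hF' := hF.continuousAt (hΩ.mem_nhds hz0)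
  have hG' := hG.continuousAt (hΩ.mem_nhds hz0)
  obtain ⟨δ0, hδ0, h0⟩ := Metric.isOpen_iff.mp hΩ z0 hz0
  obtain ⟨δ1, hδ1, h1⟩ := Metric.continuousAt_iff.mp hE' (ε * c / 4) hη
  obtain ⟨δ2, hδ2, h2⟩ := Metric.continuousAt_iff.mp hF' (ε * c / 4) hη
  obtain ⟨δ3, hδ3, h3⟩ := Metric.continuousAt_iff.mp hG' (ε * c / 4) hη
  refine ⟨min (min δ0 δ1) (min δ2 δ3), lt_min (lt_min hδ0 hδ1) (lt_min hδ2 hδ3), ?_, ?_⟩
  · exact (Metric.ball_subset_ball ((min_le_left _ _).trans (min_le_left _ _))).trans h0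
  intro z hz v
  have hz' : dist z z0 < min (min δ0 δ1) (min δ2 δ3) := hz
  have g1 : |E z - E z0| < ε * c / 4 := by
    rw [← Real.dist_eq]
    exact h1 (hz'.trans_le ((min_le_left _ _).trans (min_le_right _ _)))
  have g2 : |F z - F z0| < ε * c / 4 := by
    rw [← Real.dist_eq]
    exact h2 (hz'.trans_le ((min_le_right _ _).trans (min_le_left _ _)))
  have g3 : |G z - G z0| < ε * c / 4 := by
    rw [← Real.dist_eq]
    exact h3 (hz'.trans_le ((min_le_right _ _).trans (min_le_right _ _)))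
  have hq0 : 0 ≤ qf E F G z0 v := le_trans (by positivity) (hcv v)
  have hd : |qf E F G z v - qf E F G z0 v| ≤ ε * qf E F G z0 v := by
    have e : qf E F G z v - qf E F G z0 v = (E z - E z0) * v.re ^ 2 +
        2 * (F z - F z0) * v.re * v.im + (G z - G z0) * v.im ^ 2 := by
      unfold qf
      ring
    rw [e]
    refine (N3a_diff _ _ _ v).trans ?_
    have hs : |E z - E z0| + 2 * |F z - F z0| + |G z - G z0| ≤ ε * c := by linarith
    calc (|E z - E z0| + 2 * |F z - F z0| + |G z - G z0|) * ‖v‖ ^ 2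
        ≤ (ε * c) * ‖v‖ ^ 2 := mul_le_mul_of_nonneg_right hs (by positivity)
      _ = ε * (c * ‖v‖ ^ 2) := by ring
      _ ≤ ε * qf E F G z0 v := mul_le_mul_of_nonneg_left (hcv v) hε.le
  have hd' := abs_le.mp hd
  constructor
  · have h4 : ((1 - ε) * √(qf E F G z0 v)) ^ 2 ≤ qf E F G z v := by
      rw [mul_pow, Real.sq_sqrt hq0]
      have h5 : (1 - ε) ^ 2 ≤ 1 - ε := by nlinarith
      have h6 : (1 - ε) ^ 2 * qf E F G z0 v ≤ (1 - ε) * qf E F G z0 v :=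
        mul_le_mul_of_nonneg_right h5 hq0
      nlinarith [hd'.1]
    exact Real.le_sqrt_of_sq_le h4
  · rw [Real.sqrt_le_left (mul_nonneg (by linarith) (Real.sqrt_nonneg _)), mul_pow,
      Real.sq_sqrt hq0]
    have h5 : 1 + ε ≤ (1 + ε) ^ 2 := by nlinarith
    have h6 : (1 + ε) * qf E F G z0 v ≤ (1 + ε) ^ 2 * qf E F G z0 v :=
      mul_le_mul_of_nonneg_right h5 hq0
    nlinarith [hd'.2]

/-- Row N3a. the form is comparable with the square of the norm -/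
theorem qf_le {E F G : ℂ → ℝ} {z0 : ℂ} : ∃ C : ℝ, 0 < C ∧
    ∀ v : ℂ, √(qf E F G z0 v) ≤ C * ‖v‖ := by
  have hK : 0 ≤ |E z0| + 2 * |F z0| + |G z0| := by positivity
  refine ⟨√(|E z0| + 2 * |F z0| + |G z0|) + 1, by positivity, fun v => ?_⟩
  have h1 : qf E F G z0 v ≤ (|E z0| + 2 * |F z0| + |G z0|) * ‖v‖ ^ 2 :=
    (le_abs_self _).trans (N3a_diff _ _ _ v)
  calc √(qf E F G z0 v) ≤ √((|E z0| + 2 * |F z0| + |G z0|) * ‖v‖ ^ 2) := Real.sqrt_le_sqrt h1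
    _ = √(|E z0| + 2 * |F z0| + |G z0|) * ‖v‖ := by
      rw [Real.sqrt_mul hK, Real.sqrt_sq (norm_nonneg v)]
    _ ≤ (√(|E z0| + 2 * |F z0| + |G z0|) + 1) * ‖v‖ := by
      have := norm_nonneg v
      nlinarith

end N3a

end F10N
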