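import Pool.Agent.Lib.MP_f10cd3_gt.N.Coef
import Pool.Agent.Lib.MP_f10cd3_gt.N.Quad

/-! Rows N3: the distance is infinitesimally given by the Riemannian metric. -/

set_option autoImplicit false

namespace F10N


open MPf10cd3 F10G F10S F10R Bundle
open scoped Manifold ContDiff

variable {M : Type} [MetricSpace M] [ChartedSpace ℂ M] [IsManifold 𝓘(ℝ, ℂ) ∞ M]
  [RiemannianBundle (fun x : M => TangentSpace 𝓘(ℝ, ℂ) x)]
  [IsContMDiffRiemannianBundle 𝓘(ℝ, ℂ) ∞ ℂ (fun x : M => TangentSpace 𝓘(ℝ, ℂ) x)]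
  [IsRiemannianManifold 𝓘(ℝ, ℂ) M]

/-- the quadratic form of the metric in the chart `e` -/
noncomputable def qe (e : OpenPartialHomeomorph M ℂ) (z v : ℂ) : ℝ :=
  qf (coef e 1 1) (coef e 1 Complex.I) (coef e Complex.I Complex.I) z v

section N3b

omit [IsManifold 𝓘(ℝ, ℂ) ∞ M]
  [IsContMDiffRiemannianBundle 𝓘(ℝ, ℂ) ∞ ℂ (fun x : M => TangentSpace 𝓘(ℝ, ℂ) x)]
  [IsRiemannianManifold 𝓘(ℝ, ℂ) M] in
private theorem N3b_even (e : OpenPartialHomeomorph M ℂ) (z v : ℂ) : qe e z (-v) = qe e z v := by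
  unfold qe qf
  simp

/-- Row N3b. the curve `t ↦ e.symm (z + t (w - z))`, `riemannianEDist_le_pathELength`, `coef_quad`
(cf. the proof of `eventually_riemannianEDist_le_edist_extChartAt`) -/
theorem dist_le_seg {e : OpenPartialHomeomorph M ℂ} (he : e ∈ atlas ℂ M) {z0 : ℂ} {δ ε : ℝ}
    (hsub : Metric.ball z0 δ ⊆ e.target) (hε : 0 < ε)
    (h : ∀ z ∈ Metric.ball z0 δ, ∀ v : ℂ, √(qe e z v) ≤ (1 + ε) * √(qe e z0 v)) {z w : ℂ}
    (hz : z ∈ Metric.ball z0 δ) (hw : w ∈ Metric.ball z0 δ) :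
    dist (e.symm z) (e.symm w) ≤ (1 + ε) * √(qe e z0 (z - w)) := by
  have hsm : ContMDiffOn 𝓘(ℝ, ℂ) 𝓘(ℝ, ℂ) 1 e.symm e.target :=
    contMDiffOn_symm_of_mem_maximalAtlas
      (IsManifold.subset_maximalAtlas (I := 𝓘(ℝ, ℂ)) (n := 1) he)
  set η : ℝ → ℂ := fun t => z + t • (w - z) with hηdef
  have hηball : ∀ t ∈ Set.Icc (0 : ℝ) 1, η t ∈ Metric.ball z0 δ := by
    intro t ht
    have := (convex_ball z0 δ).add_smul_sub_mem hz hw ht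
    exact this
  have hηt : ∀ t ∈ Set.Icc (0 : ℝ) 1, η t ∈ e.target := fun t ht => hsub (hηball t ht)
  have hηc : ContDiff ℝ 1 η := by
    rw [hηdef]
    fun_prop
  have hηm : ContMDiffOn 𝓘(ℝ, ℝ) 𝓘(ℝ, ℂ) 1 η (Set.Icc 0 1) := by
    rw [contMDiffOn_iff_contDiffOn]
    exact hηc.contDiffOn
  have hηd : ∀ t, HasDerivAt η (w - z) t := by
    intro t
    have h1 : HasDerivAt (fun t : ℝ => t • (w - z)) ((1 : ℝ) • (w - z)) t :=
      (hasDerivAt_id t).smul_const (w - z)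
    rw [one_smul] at h1
    exact h1.const_add z
  set K : ℝ := (1 + ε) * √(qe e z0 (w - z)) with hK
  have hK0 : 0 ≤ K := by positivity
  have hder : ∀ t ∈ Set.Icc (0 : ℝ) 1,
      ‖mfderiv 𝓘(ℝ, ℝ) 𝓘(ℝ, ℂ) (e.symm ∘ η) t (1 : ℝ)‖ₑ ≤ ENNReal.ofReal K := by
    intro t ht
    have h1 : MDifferentiableAt 𝓘(ℝ, ℂ) 𝓘(ℝ, ℂ) e.symm (η t) :=
      ((hsm.mdifferentiableOn one_ne_zero) (η t) (hηt t ht)).mdifferentiableAt
        (e.open_target.mem_nhds (hηt t ht))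
    have h2 : MDifferentiableAt 𝓘(ℝ, ℝ) 𝓘(ℝ, ℂ) η t :=
      (hηd t).differentiableAt.mdifferentiableAt
    have h3 : mfderiv 𝓘(ℝ, ℝ) 𝓘(ℝ, ℂ) (e.symm ∘ η) t (1 : ℝ) =
        mfderiv 𝓘(ℝ, ℂ) 𝓘(ℝ, ℂ) e.symm (η t) (w - z) := by
      rw [mfderiv_comp t h1 h2]
      have h4 : mfderiv 𝓘(ℝ, ℝ) 𝓘(ℝ, ℂ) η t (1 : ℝ) = w - z := by
        rw [mfderiv_eq_fderiv]
        have := (hηd t).hasFDerivAt.fderiv
        rw [this]
        exact one_smul ℝ (w - z)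
      change (mfderiv 𝓘(ℝ, ℂ) 𝓘(ℝ, ℂ) e.symm (η t)) ((mfderiv 𝓘(ℝ, ℝ) 𝓘(ℝ, ℂ) η t) (1 : ℝ)) = _
      rw [h4]
    rw [h3, ← ofReal_norm]
    apply ENNReal.ofReal_le_ofReal
    have h5 := coef_quad e (η t) (w - z)
    have h6 : ‖mfderiv 𝓘(ℝ, ℂ) 𝓘(ℝ, ℂ) e.symm (η t) (w - z)‖ = √(qe e (η t) (w - z)) := by
      unfold qe
      rw [← h5, Real.sqrt_sq (norm_nonneg _)]
    rw [h6]
    exact h (η t) (hηball t ht) (w - z)
  have hed : edist (e.symm z) (e.symm w) ≤ ENNReal.ofReal K := by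
    rw [IsRiemannianManifold.out (I := 𝓘(ℝ, ℂ)) (e.symm z) (e.symm w)]
    have h7 : Manifold.riemannianEDist 𝓘(ℝ, ℂ) (e.symm z) (e.symm w) ≤
        Manifold.pathELength 𝓘(ℝ, ℂ) (e.symm ∘ η) 0 1 := by
      apply Manifold.riemannianEDist_le_pathELength _ _ _ zero_le_one
      · exact hsm.comp hηm (fun t ht => hηt t ht)
      · simp [hηdef]
      · simp [hηdef]
    refine h7.trans ?_
    rw [Manifold.pathELength_eq_lintegral_mfderiv_Icc]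
    calc ∫⁻ t in Set.Icc (0 : ℝ) 1, ‖mfderiv 𝓘(ℝ, ℝ) 𝓘(ℝ, ℂ) (e.symm ∘ η) t (1 : ℝ)‖ₑ
        ≤ ∫⁻ _ in Set.Icc (0 : ℝ) 1, ENNReal.ofReal K :=
          MeasureTheory.setLIntegral_mono' measurableSet_Icc hder
      _ = ENNReal.ofReal K := by simp
  have hfin : dist (e.symm z) (e.symm w) ≤ K := by
    rw [edist_dist] at hed
    exact (ENNReal.ofReal_le_ofReal_iff hK0).1 hed
  have h8 : qe e z0 (z - w) = qe e z0 (w - z) := by
    rw [← N3b_even e z0 (w - z), neg_sub]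
  rw [h8]
  exact hfin

end N3b

section N3c

omit [IsManifold 𝓘(ℝ, ℂ) ∞ M]
  [IsContMDiffRiemannianBundle 𝓘(ℝ, ℂ) ∞ ℂ (fun x : M => TangentSpace 𝓘(ℝ, ℂ) x)] in
private theorem N3c_path (p q : M) {L : ℝ} (hL : dist p q < L) : ∃ γ : ℝ → M, γ 0 = p ∧ γ 1 = q ∧
    ContMDiffOn 𝓘(ℝ, ℝ) 𝓘(ℝ, ℂ) 1 γ (Set.Icc 0 1) ∧
      Manifold.pathELength 𝓘(ℝ, ℂ) γ 0 1 < ENNReal.ofReal L := by
  apply Manifold.exists_lt_of_riemannianEDist_lt
  rw [← IsRiemannianManifold.out (I := 𝓘(ℝ, ℂ)) p q, edist_dist]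
  exact (ENNReal.ofReal_lt_ofReal_iff (lt_of_le_of_lt dist_nonneg hL)).2 hL

omit [IsManifold 𝓘(ℝ, ℂ) ∞ M]
  [IsContMDiffRiemannianBundle 𝓘(ℝ, ℂ) ∞ ℂ (fun x : M => TangentSpace 𝓘(ℝ, ℂ) x)] in
private theorem N3c_stay {p : M} {γ : ℝ → M} (h0 : γ 0 = p)
    (hγ : ContMDiffOn 𝓘(ℝ, ℝ) 𝓘(ℝ, ℂ) 1 γ (Set.Icc 0 1)) {L : ℝ}
    (hL : Manifold.pathELength 𝓘(ℝ, ℂ) γ 0 1 < ENNReal.ofReal L) {t : ℝ}
    (ht : t ∈ Set.Icc (0 : ℝ) 1) : dist p (γ t) < L := by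
  have h1 : edist p (γ t) ≤ Manifold.pathELength 𝓘(ℝ, ℂ) γ 0 t := by
    rw [IsRiemannianManifold.out (I := 𝓘(ℝ, ℂ)) p (γ t)]
    exact Manifold.riemannianEDist_le_pathELength
      (hγ.mono (Set.Icc_subset_Icc_right ht.2)) h0 rfl ht.1
  have h2 : edist p (γ t) < ENNReal.ofReal L :=
    (h1.trans (Manifold.pathELength_mono le_rfl ht.2)).trans_lt hL
  rw [edist_dist] at h2
  exact (ENNReal.ofReal_lt_ofReal_iff_of_nonneg dist_nonneg).1 h2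

omit [IsRiemannianManifold 𝓘(ℝ, ℂ) M] in
/-- a curve in the domain of the chart: the length is at least the length of the image under a
linear map which is dominated by the metric -/
private theorem N3c_len {e : OpenPartialHomeomorph M ℂ} (he : e ∈ atlas ℂ M) {B : ℂ →L[ℝ] ℂ}
    {Ω : Set ℂ} (hΩ : Ω ⊆ e.target)
    (hB : ∀ z ∈ Ω, ∀ v : ℂ, ‖B v‖ ≤ √(qe e z v)) {γ : ℝ → M}
    (hγ : ContMDiffOn 𝓘(ℝ, ℝ) 𝓘(ℝ, ℂ) 1 γ (Set.Icc 0 1))
    (hin : ∀ t ∈ Set.Icc (0 : ℝ) 1, γ t ∈ e.source ∧ e (γ t) ∈ Ω) :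
    ‖B (e (γ 1) - e (γ 0))‖ₑ ≤ Manifold.pathELength 𝓘(ℝ, ℂ) γ 0 1 := by
  have hmem : e ∈ IsManifold.maximalAtlas 𝓘(ℝ, ℂ) ∞ M := IsManifold.subset_maximalAtlas he
  have hc : ContMDiffOn 𝓘(ℝ, ℝ) 𝓘(ℝ, ℂ) 1 (e ∘ γ) (Set.Icc 0 1) :=
    ((contMDiffOn_of_mem_maximalAtlas hmem).of_le (by simp)).comp hγ (fun t ht => (hin t ht).1)
  have hc' : ContDiffOn ℝ 1 (e ∘ γ) (Set.Icc 0 1) := contMDiffOn_iff_contDiffOn.mp hc
  have hBc : ContDiffOn ℝ 1 (B ∘ (e ∘ γ)) (Set.Icc 0 1) := B.contDiff.comp_contDiffOn hc'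
  have h1 := enorm_sub_le_lintegral_derivWithin_Icc_of_contDiffOn_Icc hBc zero_le_one
  have h2 : B (e (γ 1) - e (γ 0)) = (B ∘ (e ∘ γ)) 1 - (B ∘ (e ∘ γ)) 0 := by
    simp
  rw [h2]
  refine h1.trans ?_
  have h0 : Set.EqOn γ (e.symm ∘ (e ∘ γ)) (Set.Icc 0 1) := fun t ht =>
    (e.left_inv (hin t ht).1).symm
  rw [Manifold.pathELength_congr h0, Manifold.pathELength_eq_lintegral_mfderivWithin_Icc]
  apply MeasureTheory.setLIntegral_mono' measurableSet_Icc (fun t ht ↦ ?_)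
  have hu : UniqueDiffWithinAt ℝ (Set.Icc (0 : ℝ) 1) t := uniqueDiffOn_Icc zero_lt_one t ht
  have hcd : DifferentiableWithinAt ℝ (e ∘ γ) (Set.Icc 0 1) t :=
    hc'.differentiableOn one_ne_zero t ht
  have h3 : derivWithin (B ∘ (e ∘ γ)) (Set.Icc 0 1) t
      = B (derivWithin (e ∘ γ) (Set.Icc 0 1) t) := by
    exact (B.hasFDerivAt.comp_hasDerivWithinAt t hcd.hasDerivWithinAt).derivWithin hu
  rw [h3]
  have hz : e (γ t) ∈ e.target := hΩ (hin t ht).2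
  have hsymm : MDifferentiableAt 𝓘(ℝ, ℂ) 𝓘(ℝ, ℂ) e.symm ((e ∘ γ) t) :=
    ((contMDiffOn_symm_of_mem_maximalAtlas hmem).mdifferentiableOn (by simp)).mdifferentiableAt
      (e.open_target.mem_nhds hz)
  have h4 : mfderivWithin 𝓘(ℝ, ℝ) 𝓘(ℝ, ℂ) (e.symm ∘ (e ∘ γ)) (Set.Icc 0 1) t =
      (mfderiv 𝓘(ℝ, ℂ) 𝓘(ℝ, ℂ) e.symm ((e ∘ γ) t)).comp
        (mfderivWithin 𝓘(ℝ, ℝ) 𝓘(ℝ, ℂ) (e ∘ γ) (Set.Icc 0 1) t) := by
    apply mfderiv_comp_mfderivWithin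
    · exact hsymm
    · exact hc.mdifferentiableOn one_ne_zero t ht
    · rw [uniqueMDiffWithinAt_iff_uniqueDiffWithinAt]
      exact hu
  have h5 : mfderivWithin 𝓘(ℝ, ℝ) 𝓘(ℝ, ℂ) (e.symm ∘ (e ∘ γ)) (Set.Icc 0 1) t 1 =
      mfderiv 𝓘(ℝ, ℂ) 𝓘(ℝ, ℂ) e.symm ((e ∘ γ) t) (derivWithin (e ∘ γ) (Set.Icc 0 1) t) := by
    rw [h4, mfderivWithin_eq_fderivWithin]
    rfl
  rw [h5, ← ofReal_norm, ← ofReal_norm]
  refine ENNReal.ofReal_le_ofReal ((hB _ (hin t ht).2 _).trans ?_)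
  have h6 := coef_quad e ((e ∘ γ) t) (derivWithin (e ∘ γ) (Set.Icc 0 1) t)
  have h7 : √(qe e ((e ∘ γ) t) (derivWithin (e ∘ γ) (Set.Icc 0 1) t)) =
      ‖mfderiv 𝓘(ℝ, ℂ) 𝓘(ℝ, ℂ) e.symm ((e ∘ γ) t) (derivWithin (e ∘ γ) (Set.Icc 0 1) t)‖ := by
    unfold qe
    rw [← h6, Real.sqrt_sq (norm_nonneg _)]
    rfl
  exact h7.le

/-- Row N3c. Let `γ` be a `C¹` curve from `e.symm z` to `e.symm w` of length close to the distance.
The distance of `γ t` from `e.symm z` is at most the length of `γ`, so `γ` stays in the open set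
`e.symm '' ball z0 δ` and `c = e ∘ γ` is a `C¹` curve in the ball with
`∫ ‖A c'‖ ≤ (1 - ε)⁻¹ * length γ`, `A` from `qf_norm`; `‖A (w - z)‖ ≤ ∫ ‖A c'‖`. -/
theorem dist_ge_seg {e : OpenPartialHomeomorph M ℂ} (he : e ∈ atlas ℂ M) {z0 : ℂ} {δ ε : ℝ}
    (hδ : 0 < δ) (hsub : Metric.ball z0 δ ⊆ e.target) (hε : 0 < ε) (hε1 : ε < 1)
    (h : ∀ z ∈ Metric.ball z0 δ, ∀ v : ℂ, (1 - ε) * √(qe e z0 v) ≤ √(qe e z v)) :
    ∃ η : ℝ, 0 < η ∧ η ≤ δ ∧ ∀ z ∈ Metric.ball z0 η, ∀ w ∈ Metric.ball z0 η,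
      (1 - ε) * √(qe e z0 (z - w)) ≤ dist (e.symm z) (e.symm w) := by
  have hz0 : z0 ∈ Metric.ball z0 δ := Metric.mem_ball_self hδ
  have hz0t : z0 ∈ e.target := hsub hz0
  obtain ⟨hp1, hp2⟩ := coef_pos he hz0t
  obtain ⟨A, hA⟩ := qf_norm (E := coef e 1 1) (F := coef e 1 Complex.I)
    (G := coef e Complex.I Complex.I) (z := z0) hp1 hp2
  have hε' : 0 < 1 - ε := by linarith
  -- the open set
  have hO : IsOpen (e.source ∩ e ⁻¹' Metric.ball z0 δ) :=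
    e.isOpen_inter_preimage Metric.isOpen_ball
  have hp0 : e.symm z0 ∈ e.source ∩ e ⁻¹' Metric.ball z0 δ :=
    ⟨e.map_target hz0t, by
      rw [Set.mem_preimage, e.right_inv hz0t]
      exact hz0⟩
  obtain ⟨ρ, hρ, hρO⟩ := Metric.isOpen_iff.1 hO _ hp0
  have hcont : ContinuousAt e.symm z0 := e.continuousAt_symm hz0t
  obtain ⟨η1, hη1, hη1'⟩ := Metric.continuousAt_iff.1 hcont (ρ / 3) (by positivity)
  refine ⟨min η1 δ, lt_min hη1 hδ, min_le_right _ _, ?_⟩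
  intro z hz w hw
  have hzδ : z ∈ Metric.ball z0 δ := Metric.ball_subset_ball (min_le_right _ _) hz
  have hwδ : w ∈ Metric.ball z0 δ := Metric.ball_subset_ball (min_le_right _ _) hw
  have hz1 : dist (e.symm z) (e.symm z0) < ρ / 3 :=
    hη1' (lt_of_lt_of_le (Metric.mem_ball.1 hz) (min_le_left _ _))
  have hw1 : dist (e.symm w) (e.symm z0) < ρ / 3 :=
    hη1' (lt_of_lt_of_le (Metric.mem_ball.1 hw) (min_le_left _ _))
  have hpq : dist (e.symm z) (e.symm w) < 2 * ρ / 3 := by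
    have := dist_triangle_right (e.symm z) (e.symm w) (e.symm z0)
    linarith
  -- for every length
  have key : ∀ L : ℝ, dist (e.symm z) (e.symm w) < L → L < 2 * ρ / 3 →
      (1 - ε) * √(qe e z0 (z - w)) ≤ L := by
    intro L hL hL2
    have hL0 : 0 ≤ L := dist_nonneg.trans hL.le
    obtain ⟨γ, hγ0, hγ1, hγc, hγL⟩ := N3c_path (e.symm z) (e.symm w) hL
    have hin : ∀ t ∈ Set.Icc (0 : ℝ) 1, γ t ∈ e.source ∧ e (γ t) ∈ Metric.ball z0 δ := by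
      intro t ht
      have h1 := N3c_stay hγ0 hγc hγL ht
      apply hρO
      rw [Metric.mem_ball, dist_comm]
      have h2 := dist_triangle (e.symm z0) (e.symm z) (γ t)
      rw [dist_comm (e.symm z0) (e.symm z)] at h2
      linarith
    have h3 := N3c_len he (B := (1 - ε) • A) hsub (by
      intro z' hz' v
      refine le_trans (le_of_eq ?_) (h z' hz' v)
      rw [smul_apply, norm_smul, Real.norm_of_nonneg hε'.le, hA v]
      rfl) hγc hin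
    rw [hγ0, hγ1, e.right_inv (hsub hzδ), e.right_inv (hsub hwδ)] at h3
    have h4 := h3.trans hγL.le
    rw [← ofReal_norm, ENNReal.ofReal_le_ofReal_iff hL0, smul_apply,
      norm_smul, Real.norm_of_nonneg hε'.le] at h4
    have h5 : √(qe e z0 (z - w)) = ‖A (w - z)‖ := by
      unfold qe
      rw [← hA (z - w), ← norm_neg, ← map_neg, neg_sub]
    rw [h5]
    exact h4
  by_contra hcon
  rw [not_le] at hcon
  obtain ⟨L, hL1, hL2⟩ := exists_between (lt_min hcon hpq)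
  have := key L hL1 (hL2.trans_le (min_le_right _ _))
  exact absurd (hL2.trans_le (min_le_left _ _)) (not_lt.2 this)

end N3c

section N3d

/-- Row N3d. assembly of N3a, N3b, N3c -/
theorem dist_chart {e : OpenPartialHomeomorph M ℂ} (he : e ∈ atlas ℂ M) {z0 : ℂ}
    (hz0 : z0 ∈ e.target) {ε : ℝ} (hε : 0 < ε) : ∃ η : ℝ, 0 < η ∧ ∀ z ∈ e.target,
      ∀ w ∈ e.target, ‖z - z0‖ < η → ‖w - z0‖ < η →
        |dist (e.symm z) (e.symm w) - √(qe e z0 (z - w))| ≤ ε * ‖z - w‖ := by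
  obtain ⟨C, hC, hCle⟩ := qf_le (E := coef e 1 1) (F := coef e 1 Complex.I)
    (G := coef e Complex.I Complex.I) (z0 := z0)
  set ε' : ℝ := min (1 / 2) (ε / C) with hε'
  have h0 : 0 < ε' := lt_min (by norm_num) (div_pos hε hC)
  have h1 : ε' < 1 := lt_of_le_of_lt (min_le_left _ _) (by norm_num)
  have h2 : ε' * C ≤ ε := by
    have := min_le_right (1 / 2) (ε / C)
    rw [← hε'] at this
    exact (le_div_iff₀ hC).1 this
  obtain ⟨hpE, hp⟩ := coef_pos he hz0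
  obtain ⟨δ, hδ, hsub, hcl⟩ := qf_close e.open_target (coef_smooth he 1 1).continuousOn
    (coef_smooth he 1 Complex.I).continuousOn
    (coef_smooth he Complex.I Complex.I).continuousOn hz0 hpE hp h0 h1
  obtain ⟨η, hη, hηδ, hlow⟩ := dist_ge_seg he hδ hsub h0 h1 (fun z hz v => (hcl z hz v).1)
  refine ⟨η, hη, fun z _ w _ hzn hwn => ?_⟩
  have hz : z ∈ Metric.ball z0 η := by rwa [Metric.mem_ball, dist_eq_norm]
  have hw : w ∈ Metric.ball z0 η := by rwa [Metric.mem_ball, dist_eq_norm]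
  have hup := dist_le_seg he hsub h0 (fun z hz v => (hcl z hz v).2)
    (Metric.ball_subset_ball hηδ hz) (Metric.ball_subset_ball hηδ hw)
  have hlo := hlow z hz w hw
  have hq : √(qe e z0 (z - w)) ≤ C * ‖z - w‖ := hCle (z - w)
  have hq' : ε' * √(qe e z0 (z - w)) ≤ ε * ‖z - w‖ := by
    calc ε' * √(qe e z0 (z - w)) ≤ ε' * (C * ‖z - w‖) := mul_le_mul_of_nonneg_left hq h0.le
      _ = ε' * C * ‖z - w‖ := by ring
      _ ≤ ε * ‖z - w‖ := mul_le_mul_of_nonneg_right h2 (norm_nonneg _)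
  rw [abs_le]
  constructor
  · linarith
  · linarith

end N3d

end F10N
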