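import Pool.Agent.Lib.MP_f10cd3_gt.N.Defs

/-! Rows N4: a compact Riemannian manifold is a geodesic space. -/

set_option autoImplicit false

namespace F10N


open MPf10cd3 Bundle
open scoped Manifold ContDiff

section N4a

/-- Row N4a. a curve from `x` to `y` of length `< dist x y + ε`, intermediate value theorem -/
theorem approx_mid {M : Type} [MetricSpace M] [ChartedSpace ℂ M] [IsManifold 𝓘(ℝ, ℂ) ∞ M]
    [RiemannianBundle (fun x : M => TangentSpace 𝓘(ℝ, ℂ) x)]
    [IsContMDiffRiemannianBundle 𝓘(ℝ, ℂ) ∞ ℂ (fun x : M => TangentSpace 𝓘(ℝ, ℂ) x)]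
    [IsRiemannianManifold 𝓘(ℝ, ℂ) M] (x y : M) {ε : ℝ} (hε : 0 < ε) :
    ∃ m : M, dist x m ≤ dist x y / 2 + ε ∧ dist m y ≤ dist x y / 2 + ε := by
  have hd : 0 ≤ dist x y := dist_nonneg
  have h1 : Manifold.riemannianEDist 𝓘(ℝ, ℂ) x y < ENNReal.ofReal (dist x y + ε) := by
    rw [← IsRiemannianManifold.out (I := 𝓘(ℝ, ℂ)) x y, edist_dist]
    exact (ENNReal.ofReal_lt_ofReal_iff (by linarith)).2 (by linarith)
  obtain ⟨γ, hγ0, hγ1, hγs, hγl⟩ := Manifold.exists_lt_of_riemannianEDist_lt h1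
  have hcont : ContinuousOn (fun t : ℝ => dist x (γ t)) (Set.Icc 0 1) :=
    (continuous_const.dist continuous_id).comp_continuousOn hγs.continuousOn
  have hivt := intermediate_value_Icc (zero_le_one' ℝ) hcont
  have hmem : dist x y / 2 ∈ Set.Icc (dist x (γ 0)) (dist x (γ 1)) := by
    rw [hγ0, hγ1, dist_self]
    constructor <;> linarith
  obtain ⟨t, ht, htd⟩ := hivt hmem
  refine ⟨γ t, ?_, ?_⟩
  · have : dist x (γ t) = dist x y / 2 := htd
    linarith
  · have ha : edist x (γ t) ≤ Manifold.pathELength 𝓘(ℝ, ℂ) γ 0 t := by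
      rw [IsRiemannianManifold.out (I := 𝓘(ℝ, ℂ)) x (γ t)]
      exact Manifold.riemannianEDist_le_pathELength
        (hγs.mono (Set.Icc_subset_Icc le_rfl ht.2)) hγ0 rfl ht.1
    have hb : edist (γ t) y ≤ Manifold.pathELength 𝓘(ℝ, ℂ) γ t 1 := by
      rw [IsRiemannianManifold.out (I := 𝓘(ℝ, ℂ)) (γ t) y]
      exact Manifold.riemannianEDist_le_pathELength
        (hγs.mono (Set.Icc_subset_Icc ht.1 le_rfl)) rfl hγ1 ht.2
    have hab : edist x (γ t) + edist (γ t) y < ENNReal.ofReal (dist x y + ε) := by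
      refine lt_of_le_of_lt (add_le_add ha hb) ?_
      rw [Manifold.pathELength_add ht.1 ht.2]
      exact hγl
    rw [edist_dist, edist_dist, ← ENNReal.ofReal_add dist_nonneg dist_nonneg,
      ENNReal.ofReal_lt_ofReal_iff (by linarith)] at hab
    have : dist x (γ t) = dist x y / 2 := htd
    linarith

end N4a

section N4b

private theorem N4b_mid {M : Type} [MetricSpace M] [CompactSpace M]
    (h : ∀ (x y : M) (ε : ℝ), 0 < ε → ∃ m : M, dist x m ≤ dist x y / 2 + ε ∧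
      dist m y ≤ dist x y / 2 + ε) (x y : M) :
    ∃ m : M, dist x m ≤ dist x y / 2 ∧ dist m y ≤ dist x y / 2 := by
  have h1 : ∀ n : ℕ, ∃ m : M, dist x m ≤ dist x y / 2 + 1 / ((n : ℝ) + 1) ∧
      dist m y ≤ dist x y / 2 + 1 / ((n : ℝ) + 1) := fun n => h x y _ (by positivity)
  choose m hm1 hm2 using h1
  obtain ⟨l, -, φ, hφ, hl⟩ := isCompact_univ.tendsto_subseq (x := m) (fun n => Set.mem_univ _)
  have h0 : Filter.Tendsto (fun n : ℕ => dist x y / 2 + 1 / (((φ n : ℕ) : ℝ) + 1)) Filter.atTop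
      (nhds (dist x y / 2)) := by
    have h2 := (tendsto_one_div_add_atTop_nhds_zero_nat (𝕜 := ℝ)).comp hφ.tendsto_atTop
    have h3 := h2.const_add (dist x y / 2)
    rw [add_zero] at h3
    exact h3
  refine ⟨l, ?_, ?_⟩
  · exact le_of_tendsto_of_tendsto' (tendsto_const_nhds.dist hl) h0 fun n => hm1 (φ n)
  · exact le_of_tendsto_of_tendsto' (hl.dist tendsto_const_nhds) h0 fun n => hm2 (φ n)

private theorem N4b_chain {M : Type} [MetricSpace M]
    (h : ∀ (x y : M), ∃ m : M, dist x m ≤ dist x y / 2 ∧ dist m y ≤ dist x y / 2) (n : ℕ) :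
    ∀ x y : M, ∃ z : ℕ → M, z 0 = x ∧ z (2 ^ n) = y ∧
      ∀ i < 2 ^ n, dist (z i) (z (i + 1)) ≤ dist x y / 2 ^ n := by
  induction n with
  | zero =>
    intro x y
    refine ⟨fun i => if i = 0 then x else y, by simp, by simp, ?_⟩
    intro i hi
    have : i = 0 := by simpa using hi
    subst this
    simp
  | succ n ih =>
    intro x y
    obtain ⟨m, hm1, hm2⟩ := h x y
    obtain ⟨z1, a1, a2, a3⟩ := ih x m
    obtain ⟨z2, b1, b2, b3⟩ := ih m y
    have hpos : 0 < 2 ^ n := by positivity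
    have h2 : 2 ^ (n + 1) = 2 ^ n + 2 ^ n := by rw [pow_succ]; ring
    have h2' : (2 : ℝ) ^ (n + 1) = 2 * 2 ^ n := by rw [pow_succ]; ring
    have hp : (0 : ℝ) < 2 ^ n := by positivity
    refine ⟨fun i => if i ≤ 2 ^ n then z1 i else z2 (i - 2 ^ n), ?_, ?_, ?_⟩
    · simp only [Nat.zero_le, if_true, a1]
    · rw [h2]
      have : ¬ (2 ^ n + 2 ^ n ≤ 2 ^ n) := by omega
      simp only [this, if_false, Nat.add_sub_cancel, b2]
    · intro i hi
      rw [h2] at hi
      rcases lt_or_ge i (2 ^ n) with hlt | hge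
      · have c1 : i ≤ 2 ^ n := hlt.le
        have c2 : i + 1 ≤ 2 ^ n := hlt
        simp only [c1, c2, if_true]
        refine (a3 i hlt).trans ?_
        rw [h2', div_le_div_iff₀ hp (by positivity)]
        nlinarith
      · have c2 : ¬ (i + 1 ≤ 2 ^ n) := by omega
        have e1 : (if i ≤ 2 ^ n then z1 i else z2 (i - 2 ^ n)) = z2 (i - 2 ^ n) := by
          rcases eq_or_lt_of_le hge with h3 | h3
          · rw [← h3, if_pos le_rfl, Nat.sub_self, a2, b1]
          · rw [if_neg (by omega)]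
        have e2 : i + 1 - 2 ^ n = (i - 2 ^ n) + 1 := by omega
        simp only [c2, if_false]
        rw [e1, e2]
        refine (b3 (i - 2 ^ n) (by omega)).trans ?_
        rw [h2', div_le_div_iff₀ hp (by positivity)]
        nlinarith

private theorem N4b_approx {M : Type} [MetricSpace M]
    (h : ∀ (x y : M), ∃ m : M, dist x m ≤ dist x y / 2 ∧ dist m y ≤ dist x y / 2) (x y : M)
    (n : ℕ) : ∃ γ : ℝ → M, γ 0 = x ∧ γ 1 = y ∧ ∀ s t : ℝ, 0 ≤ s → s ≤ t → t ≤ 1 →
      dist (γ s) (γ t) ≤ dist x y * (t - s) + dist x y / 2 ^ n := by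
  obtain ⟨z, h0, h1, hz⟩ := N4b_chain h n x y
  have hp : (0 : ℝ) < 2 ^ n := by positivity
  refine ⟨fun s => z ⌊(2 : ℝ) ^ n * s⌋₊, ?_, ?_, ?_⟩
  · simp only [mul_zero, Nat.floor_zero, h0]
  · have h2 : ⌊(2 : ℝ) ^ n * 1⌋₊ = 2 ^ n := by
      rw [mul_one]
      have h3 : ((2 : ℝ) ^ n) = ((2 ^ n : ℕ) : ℝ) := by push_cast; rfl
      rw [h3, Nat.floor_natCast]
    simp only [h2, h1]
  · intro s t hs hst ht
    have hab : ⌊(2 : ℝ) ^ n * s⌋₊ ≤ ⌊(2 : ℝ) ^ n * t⌋₊ :=
      Nat.floor_le_floor (mul_le_mul_of_nonneg_left hst hp.le)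
    have hb : ⌊(2 : ℝ) ^ n * t⌋₊ ≤ 2 ^ n := by
      have h2 : (⌊(2 : ℝ) ^ n * t⌋₊ : ℝ) ≤ 2 ^ n :=
        (Nat.floor_le (mul_nonneg hp.le (hs.trans hst))).trans (by nlinarith)
      exact_mod_cast h2
    have h3 := dist_le_Ico_sum_of_dist_le (f := z) hab (d := fun _ => dist x y / 2 ^ n)
      (fun {k} _ hk => hz k (by omega))
    rw [Finset.sum_const, Nat.card_Ico, nsmul_eq_mul, Nat.cast_sub hab] at h3
    refine h3.trans ?_
    have h4 : (⌊(2 : ℝ) ^ n * t⌋₊ : ℝ) ≤ 2 ^ n * t :=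
      Nat.floor_le (mul_nonneg hp.le (hs.trans hst))
    have h5 : (2 : ℝ) ^ n * s < ⌊(2 : ℝ) ^ n * s⌋₊ + 1 := Nat.lt_floor_add_one _
    have h6 : (⌊(2 : ℝ) ^ n * t⌋₊ : ℝ) - ⌊(2 : ℝ) ^ n * s⌋₊ ≤ 2 ^ n * (t - s) + 1 := by linarith
    have h7 : 0 ≤ dist x y / 2 ^ n := div_nonneg dist_nonneg hp.le
    calc _ ≤ (2 ^ n * (t - s) + 1) * (dist x y / 2 ^ n) := mul_le_mul_of_nonneg_right h6 h7
      _ = _ := by field_simp

/-- Row N4b. by compactness there are midpoints, then dyadic points and completeness -/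
theorem geod_of_mid {M : Type} [MetricSpace M] [CompactSpace M]
    (h : ∀ (x y : M) (ε : ℝ), 0 < ε → ∃ m : M, dist x m ≤ dist x y / 2 + ε ∧
      dist m y ≤ dist x y / 2 + ε) : IsGeod M := by
  intro x y
  have hmid := N4b_mid h
  choose γ g0 g1 hγ using N4b_approx hmid x y
  -- a limit along an ultrafilter
  set U : Ultrafilter ℕ := Filter.hyperfilter ℕ with hU
  have hlim : ∀ s : ℝ, ∃ l : M, Filter.Tendsto (fun n => γ n s) U (nhds l) := by
    intro s
    obtain ⟨l, -, hl⟩ := isCompact_univ.ultrafilter_le_nhds (U.map fun n => γ n s)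
      (by simp)
    exact ⟨l, hl⟩
  choose g hg using hlim
  have hUle : (U : Filter ℕ) ≤ Filter.atTop := by
    rw [hU, ← Nat.cofinite_eq_atTop]
    exact Filter.hyperfilter_le_cofinite
  have e0 : g 0 = x := by
    refine tendsto_nhds_unique (hg 0) ?_
    simp only [g0]
    exact tendsto_const_nhds
  have e1 : g 1 = y := by
    refine tendsto_nhds_unique (hg 1) ?_
    simp only [g1]
    exact tendsto_const_nhds
  have key : ∀ s t : ℝ, 0 ≤ s → s ≤ t → t ≤ 1 → dist (g s) (g t) ≤ dist x y * (t - s) := by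
    intro s t hs hst ht
    have h1 : Filter.Tendsto (fun n : ℕ => dist x y * (t - s) + dist x y / 2 ^ n) U
        (nhds (dist x y * (t - s))) := by
      have h2 : Filter.Tendsto (fun n : ℕ => dist x y * (1 / 2 : ℝ) ^ n) Filter.atTop
          (nhds (dist x y * 0)) :=
        (tendsto_pow_atTop_nhds_zero_of_lt_one (by norm_num) (by norm_num)).const_mul _
      have h3 := (h2.mono_left hUle).const_add (dist x y * (t - s))
      rw [mul_zero, add_zero] at h3
      refine h3.congr fun n => ?_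
      rw [one_div, inv_pow, div_eq_mul_inv]
    exact le_of_tendsto_of_tendsto' ((hg s).dist (hg t)) h1 fun n => hγ n s t hs hst ht
  have key2 : ∀ s t : ℝ, 0 ≤ s → s ≤ t → t ≤ 1 → dist (g s) (g t) = dist x y * (t - s) := by
    intro s t hs hst ht
    apply le_antisymm (key s t hs hst ht)
    have h1 := key 0 s le_rfl hs (hst.trans ht)
    have h2 := key t 1 (hs.trans hst) ht le_rfl
    rw [e0] at h1
    rw [e1] at h2
    have h3 := dist_triangle4 x (g s) (g t) y
    nlinarith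
  refine ⟨g, e0, e1, ?_⟩
  intro s hs t ht
  rcases le_total s t with hst | hst
  · rw [key2 s t hs.1 hst ht.2, abs_sub_comm, abs_of_nonneg (sub_nonneg.2 hst)]
  · rw [dist_comm, key2 t s ht.1 hst hs.2, abs_of_nonneg (sub_nonneg.2 hst)]

end N4b

end F10N
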