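import Pool.Agent.Lib.MP_f10cd3_gt.N.Dist
import Pool.Agent.Lib.MP_f10cd3_gt.N.Geod
import Pool.Agent.Lib.MP_f10cd3_gt.R.TriT

/-! Rows N5, N6: the theorem for Riemannian surfaces. -/

set_option autoImplicit false

namespace F10N


open MPf10cd3 F10G F10S F10R Bundle
open scoped Manifold ContDiff

variable {M : Type} [MetricSpace M] [ChartedSpace ℂ M] [IsManifold 𝓘(ℝ, ℂ) ∞ M]
  [RiemannianBundle (fun x : M => TangentSpace 𝓘(ℝ, ℂ) x)]
  [IsContMDiffRiemannianBundle 𝓘(ℝ, ℂ) ∞ ℂ (fun x : M => TangentSpace 𝓘(ℝ, ℂ) x)]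
  [IsRiemannianManifold 𝓘(ℝ, ℂ) M]

/-- the charts of `M` with the coefficients of the metric -/
def rcs (M : Type) [MetricSpace M] [ChartedSpace ℂ M]
    [RiemannianBundle (fun x : M => TangentSpace 𝓘(ℝ, ℂ) x)] : Set (RC M) :=
  {c | ∃ e ∈ atlas ℂ M, c = ⟨e.target, e.symm, coef e 1 1, coef e 1 Complex.I,
    coef e Complex.I Complex.I⟩}

section N5

omit [RiemannianBundle (fun x : M => TangentSpace 𝓘(ℝ, ℂ) x)]
  [IsContMDiffRiemannianBundle 𝓘(ℝ, ℂ) ∞ ℂ (fun x : M => TangentSpace 𝓘(ℝ, ℂ) x)]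
  [IsRiemannianManifold 𝓘(ℝ, ℂ) M] in
private theorem N5_trans {e e' : OpenPartialHomeomorph M ℂ} (he : e ∈ atlas ℂ M)
    (he' : e' ∈ atlas ℂ M) : ContDiffOn ℝ ∞ (e.symm ≫ₕ e') (e.symm ≫ₕ e').source := by
  have h1 : e.symm ≫ₕ e' ∈ contDiffGroupoid ∞ 𝓘(ℝ, ℂ) := HasGroupoid.compatible he he'
  have h2 := contMDiffOn_of_mem_contDiffGroupoid h1
  exact contMDiffOn_iff_contDiffOn.1 h2

/-- Row N5. -/
theorem rcs_atlas {κ : ℝ} (h : CurvBound κ M) (ho : Oriented M) : IsRAtlas κ (rcs M) := by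
  refine ⟨?_, ?_, ?_⟩
  · rintro c ⟨e, he, rfl⟩
    refine ⟨e.open_target, coef_smooth he 1 1, coef_smooth he 1 Complex.I,
      coef_smooth he Complex.I Complex.I, fun z hz => (coef_pos he hz).1,
      fun z hz => (coef_pos he hz).2, e.symm.injOn, e.continuousOn_symm, ?_, ?_,
      fun z hz => h e he z hz⟩
    · intro W hW hWo
      exact e.symm.isOpen_image_of_subset_source hWo hW
    · intro z0 hz0 ε hε
      exact dist_chart he hz0 hε
  · rintro c ⟨e, he, rfl⟩ c' ⟨e', he', rfl⟩ z hz z' hz' hzz'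
    change z ∈ e.target at hz
    change z' ∈ e'.target at hz'
    change e.symm z = e'.symm z' at hzz'
    have hsrc : z ∈ (e.symm ≫ₕ e').source := by
      rw [OpenPartialHomeomorph.trans_source]
      refine ⟨hz, ?_⟩
      show e.symm z ∈ e'.source
      rw [hzz']
      exact e'.map_target hz'
    have hd := N5_trans he he'
    have hopen := (e.symm ≫ₕ e').open_source
    refine ⟨e.symm ≫ₕ e', ?_, hd.contDiffAt (hopen.mem_nhds hsrc), ho e he e' he' z hsrc, ?_⟩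
    · show e' (e.symm z) = z'
      rw [hzz', e'.right_inv hz']
    · filter_upwards [hopen.mem_nhds hsrc] with w hw
      rw [OpenPartialHomeomorph.trans_source] at hw
      exact ⟨e'.map_source hw.2, e'.left_inv hw.2⟩
  · intro y
    exact ⟨_, ⟨chartAt ℂ y, chart_mem_atlas ℂ y, rfl⟩, chartAt ℂ y y,
      (chartAt ℂ y).map_source (mem_chart_source ℂ y), (chartAt ℂ y).left_inv (mem_chart_source ℂ y)⟩

end N5

section N6

/-- Row N6. -/
theorem rcs_tri {g : ℕ} [Nonempty M] (h : IsSmoothSurface g M) : HasRTri g (rcs M) := by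
  intro μ hμ
  obtain ⟨V, hV, hV', D, τ, hD, ⟨st⟩⟩ := h μ hμ
  refine ⟨V, hV, hV', D, τ, fun t => ⟨(st.ch t).target, (st.ch t).symm, coef (st.ch t) 1 1,
    coef (st.ch t) 1 Complex.I, coef (st.ch t) Complex.I Complex.I⟩, st.s, hD, ?_⟩
  exact
    { hch := fun t ht => ⟨st.ch t, st.hch t ht, rfl⟩
      smooth := st.smooth
      mem := st.mem
      lam := st.lam
      orient := st.orient }

end N6

/-- the theorem, with triangulations of arbitrarily small mesh -/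
theorem gh_mfd {κ : ℝ} (hκ : 0 < κ) {g g' : ℕ} (hg : g ≠ g') {M M' : Type}
    [MetricSpace M] [CompactSpace M] [Nonempty M] [ChartedSpace ℂ M] [IsManifold 𝓘(ℝ, ℂ) ∞ M]
    [RiemannianBundle (fun x : M => TangentSpace 𝓘(ℝ, ℂ) x)]
    [IsContMDiffRiemannianBundle 𝓘(ℝ, ℂ) ∞ ℂ (fun x : M => TangentSpace 𝓘(ℝ, ℂ) x)]
    [IsRiemannianManifold 𝓘(ℝ, ℂ) M]
    [MetricSpace M'] [CompactSpace M'] [Nonempty M'] [ChartedSpace ℂ M']
    [IsManifold 𝓘(ℝ, ℂ) ∞ M'] [RiemannianBundle (fun x : M' => TangentSpace 𝓘(ℝ, ℂ) x)]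
    [IsContMDiffRiemannianBundle 𝓘(ℝ, ℂ) ∞ ℂ (fun x : M' => TangentSpace 𝓘(ℝ, ℂ) x)]
    [IsRiemannianManifold 𝓘(ℝ, ℂ) M']
    (h : CurvBound κ M) (ho : Oriented M) (hs : IsSmoothSurface g M)
    (h' : CurvBound κ M') (ho' : Oriented M') (hs' : IsSmoothSurface g' M') :
    1 / √κ ≤ 200000 * GromovHausdorff.ghDist M M' :=
  gh_riem hκ hg (geod_of_mid fun x y ε hε => approx_mid x y hε) (rcs_atlas h ho) (rcs_tri hs)
    (geod_of_mid fun x y ε hε => approx_mid x y hε) (rcs_atlas h' ho') (rcs_tri hs')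

end F10N
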