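import Pool.Agent.Lib.MP_f10cd3_gt.N.Final
import Pool.Agent.Lib.MP_f10cd3_gt.T.Fine

/-! The theorem for closed Riemannian surfaces. -/

set_option autoImplicit false

namespace F10N

open MPf10cd3 F10G F10S F10R F10T Bundle
open scoped Manifold ContDiff

theorem gh_genus {κ : ℝ} (hκ : 0 < κ) {g g' : ℕ} (hg : g ≠ g') {M M' : Type}
    [MetricSpace M] [CompactSpace M] [Nonempty M] [ChartedSpace ℂ M] [IsManifold 𝓘(ℝ, ℂ) ∞ M]
    [RiemannianBundle (fun x : M => TangentSpace 𝓘(ℝ, ℂ) x)]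
    [IsContMDiffRiemannianBundle 𝓘(ℝ, ℂ) ∞ ℂ (fun x : M => TangentSpace 𝓘(ℝ, ℂ) x)]
    [IsRiemannianManifold 𝓘(ℝ, ℂ) M]
    [MetricSpace M'] [CompactSpace M'] [Nonempty M'] [ChartedSpace ℂ M']
    [IsManifold 𝓘(ℝ, ℂ) ∞ M'] [RiemannianBundle (fun x : M' => TangentSpace 𝓘(ℝ, ℂ) x)]
    [IsContMDiffRiemannianBundle 𝓘(ℝ, ℂ) ∞ ℂ (fun x : M' => TangentSpace 𝓘(ℝ, ℂ) x)]
    [IsRiemannianManifold 𝓘(ℝ, ℂ) M']
    (ho : Oriented M) (hs : HasGenus g M) (h : CurvBound κ M)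
    (ho' : Oriented M') (hs' : HasGenus g' M') (h' : CurvBound κ M') :
    1 / (200000 * √κ) ≤ GromovHausdorff.ghDist M M' := by
  have h1 := gh_mfd hκ hg h ho (smooth_of_genus hs) h' ho' (smooth_of_genus hs')
  have h2 : 0 < √κ := Real.sqrt_pos.2 hκ
  rw [div_le_iff₀ (by positivity)]
  rw [div_le_iff₀ h2] at h1
  linarith

end F10N
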